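import Pool.Agent.H737.BZ.LndB

/-!
# LND: the nondivergence form of the Landau operator
-/

set_option autoImplicit false

open MeasureTheory Metric Set Filter Topology
open scoped RealInnerProductSpace ENNReal

namespace Pool.Agent.H737.BZ

open Pool.Agent.H43.BZ

variable {d : ℕ}

lemma meas_nrm (γ : ℝ) : Measurable (fun z : E d => ‖z‖ ^ γ) := measurable_norm.pow_const γ

lemma coord_cont (i : Fin d) : Continuous (fun z : E d => z i) :=
  (EuclideanSpace.proj (𝕜 := ℝ) (i : Fin d)).continuous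

lemma W_cont {g : E d → ℝ} (hg : Rap g) (x : E d) {h : E d → E d} (hh : Continuous h) :
    Continuous (fun z => W g x z (h z)) := by
  have hs : Continuous (fun z : E d => x - z) := continuous_const.sub continuous_id
  have c0 : Continuous (fun z => g (x - z)) := (rap_cont0 hg).comp hs
  have c1 : Continuous (fun z => fderiv ℝ g (x - z) (h z)) := ((rap_cont1 hg).comp hs).clm_apply hh
  have c2 : Continuous (fun z => fderiv ℝ g x (h z)) := (fderiv ℝ g x).continuous.comp hh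
  exact (c0.mul c2).sub (continuous_const.mul c1)

lemma W'_cont {g : E d → ℝ} (hg : Rap g) (x : E d) {h : E d → E d} (hh : Continuous h) :
    Continuous (fun z => W' g x z (h z)) := by
  have hs : Continuous (fun z : E d => x - z) := continuous_const.sub continuous_id
  have c0 : Continuous (fun z => g (x - z)) := (rap_cont0 hg).comp hs
  have cD : Continuous (fun z => fderiv ℝ g (x - z)) := (rap_cont1 hg).comp hs
  have c1 : Continuous (fun z => fderiv ℝ g (x - z) (h z)) := cD.clm_apply hh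
  have c2 : Continuous (fun z => fderiv ℝ g x (h z)) := (fderiv ℝ g x).continuous.comp hh
  have c3 : Continuous (fun z => (fderiv ℝ (fderiv ℝ g) x).flip (h z)) :=
    (fderiv ℝ (fderiv ℝ g) x).flip.continuous.comp hh
  have c4 : Continuous (fun z => fderiv ℝ (fderiv ℝ g) (x - z)) := (rap_cont2 hg).comp hs
  have c5 : Continuous (fun z => (fderiv ℝ (fderiv ℝ g) (x - z)).flip) :=
    (ContinuousLinearMap.flipₗᵢ ℝ (E d) (E d) ℝ).continuous.comp c4
  have c6 : Continuous (fun z => (fderiv ℝ (fderiv ℝ g) (x - z)).flip (h z)) := c5.clm_apply hh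
  exact ((c2.smul cD).add (c0.smul c3)).sub ((c1.smul continuous_const).add (c6.const_smul (g x)))

lemma cc_meas {g : E d → ℝ} (hg : Rap g) (γ : ℝ) (i : Fin d) (x : E d) :
    AEStronglyMeasurable (fun z => cc γ g i x z) := by
  have c : Continuous (fun z : E d => ‖z‖ ^ 2 * W g x z (ev i) - W g x z z * z i) :=
    ((continuous_norm.pow 2).mul (W_cont hg x continuous_const)).sub ((W_cont hg x continuous_id).mul (coord_cont i))
  exact (meas_nrm γ).aestronglyMeasurable.mul c.aestronglyMeasurable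

lemma cc'_meas {g : E d → ℝ} (hg : Rap g) (γ : ℝ) (i : Fin d) (x : E d) :
    AEStronglyMeasurable (fun z => cc' γ g i x z) := by
  have c : Continuous (fun z : E d => ‖z‖ ^ 2 • W' g x z (ev i) - z i • W' g x z z) :=
    ((continuous_norm.pow 2).smul (W'_cont hg x continuous_const)).sub ((coord_cont i).smul (W'_cont hg x continuous_id))
  exact (meas_nrm γ).aestronglyMeasurable.smul c.aestronglyMeasurable

lemma cc_int {γ : ℝ} (h1 : -2 < γ) (h2 : γ < 0) {g : E d → ℝ} (hg : Rap g) (i : Fin d) (x : E d) :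
    Integrable (fun z => cc γ g i x z) := by
  obtain ⟨K, hK⟩ := cc_bound h1 h2 hg x
  refine ((dec_int0 (d := d) 1 le_rfl).const_mul K).mono' (cc_meas hg γ i x) (Eventually.of_forall fun z => ?_)
  exact (hK x (mem_ball_self one_pos) z i).1

lemma cc'_int {γ : ℝ} (h1 : -2 < γ) (h2 : γ < 0) {g : E d → ℝ} (hg : Rap g) (i : Fin d) (x : E d) :
    Integrable (fun z => cc' γ g i x z) := by
  obtain ⟨K, hK⟩ := cc_bound h1 h2 hg x
  refine ((dec_int0 (d := d) 1 le_rfl).const_mul K).mono' (cc'_meas hg γ i x) (Eventually.of_forall fun z => ?_)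
  exact (hK x (mem_ball_self one_pos) z i).2

lemma hasF_int {γ : ℝ} (h1 : -2 < γ) (h2 : γ < 0) {g : E d → ℝ} (hg : Rap g) (i : Fin d) (v : E d) :
    HasFDerivAt (fun x => ∫ z, cc γ g i x z) (∫ z, cc' γ g i v z) v := by
  obtain ⟨K, hK⟩ := cc_bound h1 h2 hg v
  exact hasFDerivAt_integral_of_dominated_of_fderiv_le (μ := (volume : Measure (E d)))
    (F := fun x z => cc γ g i x z) (F' := fun x z => cc' γ g i x z) (x₀ := v) (s := ball v 1)
    (bound := fun z => K * ((1 + ‖z‖) ^ (d + 1))⁻¹) (ball_mem_nhds v one_pos)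
    (Eventually.of_forall fun x => cc_meas hg γ i x) (cc_int h1 h2 hg i v) (cc'_meas hg γ i v)
    (Eventually.of_forall fun z x hx => (hK x hx z i).2) ((dec_int0 (d := d) 1 le_rfl).const_mul K)
    (Eventually.of_forall fun z x _ => hasF_cc hg γ i x z)

/-! ### the flux -/

lemma inner_grad (g : E d → ℝ) (x h : E d) : ⟪gradient g x, h⟫ = fderiv ℝ g x h :=
  InnerProductSpace.toDual_symm_apply

lemma inner_grad' (g : E d → ℝ) (x h : E d) : ⟪h, gradient g x⟫ = fderiv ℝ g x h := by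
  rw [real_inner_comm, inner_grad]

lemma grad_coord (g : E d → ℝ) (x : E d) (i : Fin d) : (gradient g x) i = fderiv ℝ g x (ev i) := by
  rw [← inner_ev, inner_grad]

lemma aL_coord (γ : ℝ) (g : E d → ℝ) (i : Fin d) (x w : E d) :
    (aL γ (x - w) (g w • gradient g x - g x • gradient g w)) i = cc γ g i x (x - w) := by
  unfold cc W aL
  rw [sub_sub_cancel, inner_sub_right, inner_smul_right, inner_smul_right, inner_grad', inner_grad']
  simp only [PiLp.smul_apply, PiLp.sub_apply, smul_eq_mul, grad_coord]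

lemma cc_sub_int {γ : ℝ} (h1 : -2 < γ) (h2 : γ < 0) {g : E d → ℝ} (hg : Rap g) (i : Fin d) (x : E d) :
    Integrable (fun w => cc γ g i x (x - w)) := (cc_int h1 h2 hg i x).comp_sub_left x

lemma flux_coord {γ : ℝ} (h1 : -2 < γ) (h2 : γ < 0) {g : E d → ℝ} (hg : Rap g) (i : Fin d) (x : E d) :
    (fluxL γ g x) i = ∫ z, cc γ g i x z := by
  have e : ∀ i, (fun w => (aL γ (x - w) (g w • gradient g x - g x • gradient g w)) i) =
      fun w => cc γ g i x (x - w) := fun i => funext fun w => aL_coord γ g i x w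
  unfold fluxL
  rw [eval_integral_piLp (fun i => by rw [e i]; exact cc_sub_int h1 h2 hg i x)]
  rw [e i]
  exact integral_sub_left_eq_self (fun z => cc γ g i x z) volume x

lemma flux_diff {γ : ℝ} (h1 : -2 < γ) (h2 : γ < 0) {g : E d → ℝ} (hg : Rap g) (v : E d) :
    DifferentiableAt ℝ (fluxL γ g) v := by
  rw [differentiableAt_euclidean]
  intro i
  have e : (fun x => (fluxL γ g x) i) = fun x => ∫ z, cc γ g i x z := funext fun x => flux_coord h1 h2 hg i x
  rw [e]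
  exact (hasF_int h1 h2 hg i v).differentiableAt

lemma flux_term {γ : ℝ} (h1 : -2 < γ) (h2 : γ < 0) {g : E d → ℝ} (hg : Rap g) (i : Fin d) (v : E d) :
    ⟪fderiv ℝ (fluxL γ g) v (ev i), ev i⟫ = ∫ z, cc' γ g i v z (ev i) := by
  have e : (fun x => (fluxL γ g x) i) = fun x => ∫ z, cc γ g i x z := funext fun x => flux_coord h1 h2 hg i x
  have a1 : HasFDerivAt (fun x => (fluxL γ g x) i)
      ((EuclideanSpace.proj (𝕜 := ℝ) i : E d →L[ℝ] ℝ).comp (fderiv ℝ (fluxL γ g) v)) v :=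
    (EuclideanSpace.proj (𝕜 := ℝ) i : E d →L[ℝ] ℝ).hasFDerivAt.comp v (flux_diff h1 h2 hg v).hasFDerivAt
  rw [e] at a1
  have a2 := a1.unique (hasF_int h1 h2 hg i v)
  rw [inner_ev, ← ContinuousLinearMap.integral_apply (cc'_int h1 h2 hg i v), ← a2]
  rfl

lemma sum_cc' (γ : ℝ) (g : E d → ℝ) (v z : E d) : ∑ i, cc' γ g i v z (ev i) =
    g (v - z) * aHess γ g v z - g v * aHess γ g (v - z) z := by
  have e : ∀ i : Fin d, cc' γ g i v z (ev i) = ‖z‖ ^ γ * ‖z‖ ^ 2 * (g (v - z) * d2 g v (ev i)) -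
      ‖z‖ ^ γ * ‖z‖ ^ 2 * (g v * d2 g (v - z) (ev i)) - ‖z‖ ^ γ * (z i * W' g v z z (ev i)) := by
    intro i
    show ‖z‖ ^ γ * (‖z‖ ^ 2 * W' g v z (ev i) (ev i) - z i * W' g v z z (ev i)) = _
    rw [W'_apply g v z (ev i) (ev i)]
    unfold d2
    ring
  rw [Finset.sum_congr rfl fun i _ => e i, Finset.sum_sub_distrib, Finset.sum_sub_distrib, ← Finset.mul_sum,
    ← Finset.mul_sum, ← Finset.mul_sum, ← Finset.mul_sum, ← Finset.mul_sum, sum_clm, W'_apply]
  unfold aHess d2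
  show ‖z‖ ^ γ * ‖z‖ ^ 2 * (g (v - z) * ∑ i : Fin d, fderiv ℝ (fderiv ℝ g) v (ev i) (ev i)) -
      ‖z‖ ^ γ * ‖z‖ ^ 2 * (g v * ∑ i : Fin d, fderiv ℝ (fderiv ℝ g) (v - z) (ev i) (ev i)) -
      ‖z‖ ^ γ * (fderiv ℝ g v z * fderiv ℝ g (v - z) z + g (v - z) * fderiv ℝ (fderiv ℝ g) v z z -
        (fderiv ℝ g (v - z) z * fderiv ℝ g v z + g v * fderiv ℝ (fderiv ℝ g) (v - z) z z)) =
    g (v - z) * (‖z‖ ^ γ * (‖z‖ ^ 2 * ∑ i : Fin d, fderiv ℝ (fderiv ℝ g) v (ev i) (ev i) -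
      fderiv ℝ (fderiv ℝ g) v z z)) - g v * (‖z‖ ^ γ * (‖z‖ ^ 2 * ∑ i : Fin d,
      fderiv ℝ (fderiv ℝ g) (v - z) (ev i) (ev i) - fderiv ℝ (fderiv ℝ g) (v - z) z z))
  ring

lemma QL_eq {γ : ℝ} (h1 : -2 < γ) (h2 : γ < 0) {g : E d → ℝ} (hg : Rap g) (v : E d) :
    QL γ g v = ∫ w, (g w * aHess γ g v (v - w) - g v * aHess γ g w (v - w)) := by
  have hi : ∀ i : Fin d, Integrable (fun z => cc' γ g i v z (ev i)) := fun i =>
    (cc'_int h1 h2 hg i v).apply_continuousLinearMap (ev i)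
  calc QL γ g v = ∑ i : Fin d, ∫ z, cc' γ g i v z (ev i) := Finset.sum_congr rfl fun i _ => flux_term h1 h2 hg i v
    _ = ∫ z, ∑ i : Fin d, cc' γ g i v z (ev i) := (integral_finsetSum _ fun i _ => hi i).symm
    _ = ∫ z, (g (v - z) * aHess γ g v z - g v * aHess γ g (v - z) z) :=
      integral_congr_ae (Eventually.of_forall fun z => sum_cc' γ g v z)
    _ = ∫ w, (g (v - (v - w)) * aHess γ g v (v - w) - g v * aHess γ g (v - (v - w)) (v - w)) :=
      (integral_sub_left_eq_self (fun z => g (v - z) * aHess γ g v z - g v * aHess γ g (v - z) z) volume v).symm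
    _ = _ := by
      refine integral_congr_ae (Eventually.of_forall fun w => ?_)
      beta_reduce
      rw [sub_sub_cancel]

lemma aHess_eq (γ : ℝ) (g : E d → ℝ) (w z : E d) : aHess γ g w z = ‖z‖ ^ γ * (‖z‖ ^ 2 * lap g w - d2 g w z) := rfl

lemma aHess_le {γ : ℝ} (h1 : -2 < γ) (h2 : γ < 0) (g : E d → ℝ) (w z : E d) :
    |aHess γ g w z| ≤ (((d : ℝ) + 1) * ((1 + ‖z‖) * (1 + ‖z‖))) * ‖fderiv ℝ (fderiv ℝ g) w‖ := by
  have a2 := bdT (g := g) w z
  have a3 := pow_two_le h1 h2 (norm_nonneg z)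
  have a4 := nd2 g w
  have a6 : 0 ≤ ‖z‖ ^ γ := Real.rpow_nonneg (norm_nonneg _) _
  rw [aHess_eq, abs_mul, abs_of_nonneg a6]
  calc ‖z‖ ^ γ * |‖z‖ ^ 2 * lap g w - d2 g w z|
      ≤ ‖z‖ ^ γ * (((d : ℝ) + 1) * ‖z‖ ^ 2 * ‖fderiv ℝ (fderiv ℝ g) w‖) := mul_le_mul_of_nonneg_left a2 a6
    _ = (((d : ℝ) + 1) * ‖fderiv ℝ (fderiv ℝ g) w‖) * (‖z‖ ^ γ * ‖z‖ ^ 2) := by ring
    _ ≤ (((d : ℝ) + 1) * ‖fderiv ℝ (fderiv ℝ g) w‖) * (1 + ‖z‖) ^ 2 :=
        mul_le_mul_of_nonneg_left a3 (by positivity)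
    _ = _ := by ring

lemma gr_one_dist (v : E d) : Gr (fun w : E d => 1 + ‖v - w‖) := by
  obtain ⟨K, m, hK⟩ := Gr.dist v
  refine ⟨1 + K, m, fun w => ?_⟩
  have a1 : 1 ≤ (1 + ‖w‖) ^ m := one_le_pow₀ (by linarith [norm_nonneg w])
  have a2 := hK w
  rw [abs_of_nonneg (norm_nonneg _)] at a2
  rw [abs_of_nonneg (by positivity)]
  linarith

lemma int1 {γ : ℝ} (h1 : -2 < γ) (h2 : γ < 0) {g : E d → ℝ} (hg : Rap g) (v : E d) :
    Integrable (fun w => g w * aHess γ g v (v - w)) := by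
  have hz : Continuous (fun w : E d => v - w) := continuous_const.sub continuous_id
  have e0 := gr_one_dist v
  have hb : Dec (fun w => (((d : ℝ) + 1) * ‖fderiv ℝ (fderiv ℝ g) v‖ * ((1 + ‖v - w‖) * (1 + ‖v - w‖))) * g w) :=
    Dec.mul ((Gr.const _).mul (e0.mul e0)) (rap_dec0 hg)
  have hc : Continuous (fun w => (((d : ℝ) + 1) * ‖fderiv ℝ (fderiv ℝ g) v‖ *
      ((1 + ‖v - w‖) * (1 + ‖v - w‖))) * g w) :=
    (continuous_const.mul ((continuous_const.add hz.norm).mul (continuous_const.add hz.norm))).mul (rap_cont0 hg)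
  have hd2 : Continuous (fun w : E d => d2 g v (v - w)) := by
    unfold d2
    exact ((fderiv ℝ (fderiv ℝ g) v).continuous.comp hz).clm_apply hz
  have hm : AEStronglyMeasurable (fun w => g w * aHess γ g v (v - w)) :=
    (rap_cont0 hg).aestronglyMeasurable.mul ((meas_pow γ v).aestronglyMeasurable.mul
      (((hz.norm.pow 2).mul continuous_const).sub hd2).aestronglyMeasurable)
  refine (hb.int hc.aestronglyMeasurable).abs.mono' hm (Eventually.of_forall fun w => ?_)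
  have a := aHess_le h1 h2 g v (v - w)
  have a4 := nd2 g v
  rw [Real.norm_eq_abs, abs_mul, abs_mul, abs_of_nonneg (by positivity :
    0 ≤ ((d : ℝ) + 1) * ‖fderiv ℝ (fderiv ℝ g) v‖ * ((1 + ‖v - w‖) * (1 + ‖v - w‖)))]
  refine (mul_le_mul_of_nonneg_left a (abs_nonneg _)).trans (le_of_eq ?_)
  ring

lemma T_cont' {g : E d → ℝ} (hg : Rap g) (v : E d) :
    Continuous (fun w => ‖v - w‖ ^ 2 * lap g w - d2 g w (v - w)) := T_cont hg v

lemma int2 {γ : ℝ} (h1 : -2 < γ) (h2 : γ < 0) {g : E d → ℝ} (hg : Rap g) (v : E d) :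
    Integrable (fun w => aHess γ g w (v - w)) := by
  have hz : Continuous (fun w : E d => v - w) := continuous_const.sub continuous_id
  have e0 := gr_one_dist v
  have hb : Dec (fun w => (((d : ℝ) + 1) * ((1 + ‖v - w‖) * (1 + ‖v - w‖))) * ‖fderiv ℝ (fderiv ℝ g) w‖) :=
    Dec.mul ((Gr.const _).mul (e0.mul e0)) (rap_dec2 hg)
  have c3 : Continuous (fun w => ‖fderiv ℝ (fderiv ℝ g) w‖) :=
    Continuous.norm (E := E d →L[ℝ] E d →L[ℝ] ℝ) (rap_cont2 hg)
  have hc : Continuous (fun w => (((d : ℝ) + 1) * ((1 + ‖v - w‖) * (1 + ‖v - w‖))) * ‖fderiv ℝ (fderiv ℝ g) w‖) :=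
    (continuous_const.mul ((continuous_const.add hz.norm).mul (continuous_const.add hz.norm))).mul c3
  have hm : AEStronglyMeasurable (fun w => aHess γ g w (v - w)) :=
    (meas_pow γ v).aestronglyMeasurable.mul (T_cont hg v).aestronglyMeasurable
  refine (hb.int hc.aestronglyMeasurable).mono' hm (Eventually.of_forall fun w => ?_)
  rw [Real.norm_eq_abs]
  exact aHess_le h1 h2 g w (v - w)

theorem LND : S_LND := by
  intro d hd γ h1 h2 g hg v
  rw [QL_eq h1 h2 hg v, integral_sub (int1 h1 h2 hg v) ((int2 h1 h2 hg v).const_mul (g v)), integral_const_mul]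
  have e : (∫ w, aHess γ g w (v - w)) = -(((d : ℝ) - 1) * (d + γ) * ∫ w, g w * ‖v - w‖ ^ γ) :=
    sing_id hd h1 h2 hg v
  rw [e]
  ring

end Pool.Agent.H737.BZ
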