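import Pool.Agent.H43.BZ.Stm3

/-!
# LND, first part: decay, coordinates, integration by parts
-/

set_option autoImplicit false

open MeasureTheory Metric Set Filter Topology
open scoped RealInnerProductSpace ENNReal

namespace Pool.Agent.H737.BZ

open Pool.Agent.H43.BZ

variable {d : ℕ}

/-! ### coordinates -/

/-- the unit vectors -/
noncomputable def ev (i : Fin d) : E d := EuclideanSpace.single i (1 : ℝ)

lemma ev_norm (i : Fin d) : ‖(ev i : E d)‖ = 1 := by simp [ev]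

lemma inner_ev (z : E d) (i : Fin d) : ⟪z, ev i⟫ = z i := by
  simp [ev, EuclideanSpace.inner_single_right]

lemma ev_self (i : Fin d) : (ev i : E d) i = 1 := by simp [ev]

lemma sum_ev (z : E d) : ∑ i, z i • (ev i : E d) = z := by
  ext j
  simp [ev, Pi.single_apply]

lemma sum_clm (L : E d →L[ℝ] ℝ) (z : E d) : ∑ i, z i * L (ev i) = L z := by
  have h := congrArg L (sum_ev z)
  rw [map_sum] at h
  rw [← h]
  exact Finset.sum_congr rfl fun i _ => by rw [map_smul, smul_eq_mul]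

lemma sum_sq (z : E d) : ∑ i, z i * z i = ‖z‖ ^ 2 := by
  rw [EuclideanSpace.real_norm_sq_eq]
  exact Finset.sum_congr rfl fun i _ => by ring

lemma abs_coord_le (z : E d) (i : Fin d) : |z i| ≤ ‖z‖ := by
  have := abs_real_inner_le_norm z (ev i)
  rw [inner_ev, ev_norm, mul_one] at this
  exact this

/-! ### decay and growth -/

/-- the decaying power -/
lemma dec_int0 (n : ℕ) (hn : 1 ≤ n) : Integrable (fun w : E d => ((1 + ‖w‖) ^ (d + n))⁻¹) := by
  have h1 : Integrable (fun w : E d => (1 + ‖w‖) ^ (-((d + n : ℕ) : ℝ))) := by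
    refine integrable_one_add_norm ?_
    rw [finrank_euclideanSpace_fin]
    exact_mod_cast (show d < d + n by omega)
  refine h1.congr (Filter.Eventually.of_forall fun w => ?_)
  beta_reduce
  rw [Real.rpow_neg (by positivity), Real.rpow_natCast]

/-- rapid decay -/
def Dec (f : E d → ℝ) : Prop := ∀ q : ℕ, ∃ C : ℝ, ∀ w, (1 + ‖w‖) ^ q * |f w| ≤ C

/-- polynomial growth -/
def Gr (f : E d → ℝ) : Prop := ∃ (K : ℝ) (m : ℕ), ∀ w, |f w| ≤ K * (1 + ‖w‖) ^ m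

lemma Dec.mono {f h : E d → ℝ} (hf : Dec f) (hh : ∀ w, |h w| ≤ |f w|) : Dec h := by
  intro q
  obtain ⟨C, hC⟩ := hf q
  exact ⟨C, fun w => (mul_le_mul_of_nonneg_left (hh w) (by positivity)).trans (hC w)⟩

lemma Gr.mono {f h : E d → ℝ} (hf : Gr f) (hh : ∀ w, |h w| ≤ |f w|) : Gr h := by
  obtain ⟨K, m, hK⟩ := hf
  exact ⟨K, m, fun w => (hh w).trans (hK w)⟩

lemma Dec.mul {f h : E d → ℝ} (hh : Gr h) (hf : Dec f) : Dec (fun w => h w * f w) := by
  intro q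
  obtain ⟨K, m, hK⟩ := hh
  obtain ⟨C, hC⟩ := hf (q + m)
  refine ⟨|K| * C, fun w => ?_⟩
  have hL : 0 ≤ 1 + ‖w‖ := by positivity
  have h1 : |h w| ≤ |K| * (1 + ‖w‖) ^ m :=
    (hK w).trans (mul_le_mul_of_nonneg_right (le_abs_self K) (by positivity))
  calc (1 + ‖w‖) ^ q * |h w * f w| = ((1 + ‖w‖) ^ q * |f w|) * |h w| := by rw [abs_mul]; ring
    _ ≤ ((1 + ‖w‖) ^ q * |f w|) * (|K| * (1 + ‖w‖) ^ m) := mul_le_mul_of_nonneg_left h1 (by positivity)
    _ = |K| * ((1 + ‖w‖) ^ (q + m) * |f w|) := by rw [pow_add]; ring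
    _ ≤ |K| * C := mul_le_mul_of_nonneg_left (hC w) (abs_nonneg _)

lemma Dec.add {f h : E d → ℝ} (hf : Dec f) (hh : Dec h) : Dec (fun w => f w + h w) := by
  intro q
  obtain ⟨C, hC⟩ := hf q
  obtain ⟨C', hC'⟩ := hh q
  refine ⟨C + C', fun w => ?_⟩
  have hL : 0 ≤ (1 + ‖w‖) ^ q := by positivity
  calc (1 + ‖w‖) ^ q * |f w + h w| ≤ (1 + ‖w‖) ^ q * (|f w| + |h w|) :=
        mul_le_mul_of_nonneg_left (abs_add_le _ _) hL
    _ = (1 + ‖w‖) ^ q * |f w| + (1 + ‖w‖) ^ q * |h w| := by ring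
    _ ≤ C + C' := add_le_add (hC w) (hC' w)

lemma Dec.neg {f : E d → ℝ} (hf : Dec f) : Dec (fun w => -f w) := hf.mono fun w => by rw [abs_neg]

lemma Dec.sub {f h : E d → ℝ} (hf : Dec f) (hh : Dec h) : Dec (fun w => f w - h w) := by
  have := hf.add hh.neg
  intro q
  obtain ⟨C, hC⟩ := this q
  refine ⟨C, fun w => ?_⟩
  show (1 + ‖w‖) ^ q * |f w - h w| ≤ C
  rw [sub_eq_add_neg]
  exact hC w

lemma Dec.const_mul {f : E d → ℝ} (c : ℝ) (hf : Dec f) : Dec (fun w => c * f w) :=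
  Dec.mul (h := fun _ => c) ⟨|c|, 0, fun w => by simp⟩ hf

lemma Gr.const (c : ℝ) : Gr (fun _ : E d => c) := ⟨|c|, 0, fun w => by simp⟩

lemma Gr.mul {f h : E d → ℝ} (hf : Gr f) (hh : Gr h) : Gr (fun w => f w * h w) := by
  obtain ⟨K, m, hK⟩ := hf
  obtain ⟨K', m', hK'⟩ := hh
  refine ⟨K * K', m + m', fun w => ?_⟩
  rw [abs_mul]
  calc |f w| * |h w| ≤ (K * (1 + ‖w‖) ^ m) * (K' * (1 + ‖w‖) ^ m') :=
        mul_le_mul (hK w) (hK' w) (abs_nonneg _) ((abs_nonneg _).trans (hK w))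
    _ = K * K' * (1 + ‖w‖) ^ (m + m') := by rw [pow_add]; ring

lemma Gr.dist (v : E d) : Gr (fun w : E d => ‖v - w‖) := by
  refine ⟨1 + ‖v‖, 1, fun w => ?_⟩
  rw [abs_of_nonneg (norm_nonneg _), pow_one]
  have h1 := norm_sub_le v w
  have h2 : 0 ≤ ‖v‖ * ‖w‖ := by positivity
  nlinarith [norm_nonneg v, norm_nonneg w]

lemma Dec.int {f : E d → ℝ} (hf : Dec f) (hm : AEStronglyMeasurable f) : Integrable f := by
  obtain ⟨C, hC⟩ := hf (d + 1)
  refine ((dec_int0 (d := d) 1 le_rfl).const_mul C).mono' hm (Eventually.of_forall fun w => ?_)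
  have hL : 0 < (1 + ‖w‖) ^ (d + 1) := by positivity
  rw [Real.norm_eq_abs, ← div_eq_mul_inv, le_div_iff₀ hL, mul_comm]
  exact hC w

lemma Dec.bdd {f : E d → ℝ} (hf : Dec f) : ∃ C : ℝ, ∀ w, |f w| ≤ C := by
  obtain ⟨C, hC⟩ := hf 0
  exact ⟨C, fun w => by have := hC w; rwa [pow_zero, one_mul] at this⟩

/-! ### the decay of a function with two derivatives -/

lemma rap_dec0 {g : E d → ℝ} (hg : Rap g) : Dec g := fun q => by
  obtain ⟨C, hC⟩ := hg.2 q
  exact ⟨C, fun w => (hC w).1⟩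

lemma rap_dec1 {g : E d → ℝ} (hg : Rap g) : Dec (fun w => ‖fderiv ℝ g w‖) := fun q => by
  obtain ⟨C, hC⟩ := hg.2 q
  refine ⟨C, fun w => ?_⟩
  show (1 + ‖w‖) ^ q * |‖fderiv ℝ g w‖| ≤ C
  rw [abs_of_nonneg (norm_nonneg _)]
  exact (hC w).2.1

lemma rap_dec2 {g : E d → ℝ} (hg : Rap g) : Dec (fun w => ‖fderiv ℝ (fderiv ℝ g) w‖) := fun q => by
  obtain ⟨C, hC⟩ := hg.2 q
  refine ⟨C, fun w => ?_⟩
  have h0 : (0 : ℝ) ≤ ‖fderiv ℝ (fderiv ℝ g) w‖ := ContinuousLinearMap.opNorm_nonneg _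
  show (1 + ‖w‖) ^ q * |‖fderiv ℝ (fderiv ℝ g) w‖| ≤ C
  rw [abs_of_nonneg h0]
  exact (hC w).2.2

lemma rap_diff {g : E d → ℝ} (hg : Rap g) : Differentiable ℝ g := hg.1.differentiable (by norm_num)

lemma rap_cd1 {g : E d → ℝ} (hg : Rap g) : ContDiff ℝ 1 (fderiv ℝ g) :=
  hg.1.fderiv_right (by norm_num)

lemma rap_diff1 {g : E d → ℝ} (hg : Rap g) : Differentiable ℝ (fderiv ℝ g) := (rap_cd1 hg).differentiable (by norm_num)

lemma rap_cont0 {g : E d → ℝ} (hg : Rap g) : Continuous g := hg.1.continuous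

lemma rap_cont1 {g : E d → ℝ} (hg : Rap g) : Continuous (fderiv ℝ g) := (rap_cd1 hg).continuous

lemma rap_cont2 {g : E d → ℝ} (hg : Rap g) : Continuous (fderiv ℝ (fderiv ℝ g)) :=
  (rap_cd1 hg).continuous_fderiv (by norm_num)

/-! ### integrals of derivatives -/

lemma int_fderiv_zero {u : E d → ℝ} (hu : Differentiable ℝ u) (k : E d) (hi : Integrable u)
    (h' : Integrable (fun w => fderiv ℝ u w k)) : ∫ w, fderiv ℝ u w k = 0 := by
  have h := integral_mul_fderiv_eq_neg_fderiv_mul_of_integrable (μ := (volume : Measure (E d)))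
    (f := fun _ : E d => (1 : ℝ)) (g := u) (v := k)
    (by simp) (by simpa using h') (by simpa using hi)
    (fun x _ => differentiableAt_const _) (fun x _ => hu x)
  simpa using h

end Pool.Agent.H737.BZ
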