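import Pool.Agent.H737.BZ.LndA

/-!
# LND: the divergence of the regularised vector fields
-/

set_option autoImplicit false

open MeasureTheory Metric Set Filter Topology
open scoped RealInnerProductSpace ENNReal

namespace Pool.Agent.H737.BZ

open Pool.Agent.H43.BZ

variable {d : ℕ}

/-- the regularised power of the distance -/
noncomputable def rh (γ ε : ℝ) (v w : E d) : ℝ := (‖v - w‖ ^ 2 + ε) ^ (γ / 2)

/-- the derivative of the regularised power -/
noncomputable def rh' (γ ε : ℝ) (v w : E d) : ℝ := (‖v - w‖ ^ 2 + ε) ^ (γ / 2 - 1)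

lemma proj_ev (i : Fin d) (z : E d) : (EuclideanSpace.proj (𝕜 := ℝ) i : E d →L[ℝ] ℝ) z = z i := rfl

lemma hasF_sub (v w : E d) : HasFDerivAt (fun y : E d => v - y) (-ContinuousLinearMap.id ℝ (E d)) w :=
  (hasFDerivAt_id w).const_sub v

lemma hasF_nsq (v w : E d) : HasFDerivAt (fun y : E d => ‖v - y‖ ^ 2)
    (2 • (innerSL ℝ (v - w)).comp (-ContinuousLinearMap.id ℝ (E d))) w := (hasF_sub v w).norm_sq

lemma hasF_rh {γ ε : ℝ} (hε : 0 < ε) (v w : E d) : HasFDerivAt (fun y : E d => rh γ ε v y)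
    ((γ / 2 * rh' γ ε v w) • (2 • (innerSL ℝ (v - w)).comp (-ContinuousLinearMap.id ℝ (E d)))) w := by
  have h : HasFDerivAt (fun y : E d => ‖v - y‖ ^ 2 + ε) _ w := (hasF_nsq v w).add_const ε
  have h1 : ‖v - w‖ ^ 2 + ε ≠ 0 := by positivity
  exact h.rpow_const (p := γ / 2) (Or.inl h1)

lemma hasF_coord (v w : E d) (i : Fin d) : HasFDerivAt (fun y : E d => (v - y) i)
    ((EuclideanSpace.proj (𝕜 := ℝ) i).comp (-ContinuousLinearMap.id ℝ (E d))) w :=
  (EuclideanSpace.proj (𝕜 := ℝ) (i : Fin d)).hasFDerivAt.comp w (hasF_sub v w)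

/-- components of the first vector field -/
noncomputable def u1 (γ ε : ℝ) (g : E d → ℝ) (v : E d) (i : Fin d) (w : E d) : ℝ :=
  rh γ ε v w * (‖v - w‖ ^ 2 * fderiv ℝ g w (ev i) - fderiv ℝ g w (v - w) * (v - w) i)

/-- components of the second vector field -/
noncomputable def u2 (γ ε : ℝ) (g : E d → ℝ) (v : E d) (i : Fin d) (w : E d) : ℝ :=
  rh γ ε v w * g w * (v - w) i

/-- the derivative of `u1 i` in the direction `i` -/
noncomputable def u1' (γ ε : ℝ) (g : E d → ℝ) (v : E d) (i : Fin d) (w : E d) : ℝ :=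
  -(γ * rh' γ ε v w) * (v - w) i * (‖v - w‖ ^ 2 * fderiv ℝ g w (ev i) - fderiv ℝ g w (v - w) * (v - w) i) +
    rh γ ε v w * (-(2 * (v - w) i * fderiv ℝ g w (ev i)) + ‖v - w‖ ^ 2 * fderiv ℝ (fderiv ℝ g) w (ev i) (ev i) -
      (fderiv ℝ (fderiv ℝ g) w (ev i) (v - w) - fderiv ℝ g w (ev i)) * (v - w) i + fderiv ℝ g w (v - w))

/-- the derivative of `u2 i` in the direction `i` -/
noncomputable def u2' (γ ε : ℝ) (g : E d → ℝ) (v : E d) (i : Fin d) (w : E d) : ℝ :=
  -(γ * rh' γ ε v w) * (v - w) i * g w * (v - w) i + rh γ ε v w * fderiv ℝ g w (ev i) * (v - w) i -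
    rh γ ε v w * g w

lemma hasF_u1 {γ ε : ℝ} (hε : 0 < ε) {g : E d → ℝ} (hg : Rap g) (v : E d) (i : Fin d) (w : E d) :
    ∃ L : E d →L[ℝ] ℝ, HasFDerivAt (u1 γ ε g v i) L w ∧ L (ev i) = u1' γ ε g v i w := by
  have hD : HasFDerivAt (fderiv ℝ g) (fderiv ℝ (fderiv ℝ g) w) w := (rap_diff1 hg w).hasFDerivAt
  have h1 := hD.clm_apply (hasFDerivAt_const (ev i : E d) w)
  have h2 := hD.clm_apply (hasF_sub v w)
  have h3 := (hasF_rh (γ := γ) hε v w).mul (((hasF_nsq v w).mul h1).sub (h2.mul (hasF_coord v w i)))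
  refine ⟨_, h3, ?_⟩
  simp only [u1', inner_ev, ev_self, add_apply, sub_apply,
    smul_apply, ContinuousLinearMap.comp_apply, neg_apply,
    ContinuousLinearMap.id_apply, ContinuousLinearMap.flip_apply, zero_apply,
    innerSL_apply_apply, inner_neg_right, map_zero, map_neg, smul_eq_mul, nsmul_eq_mul,
    proj_ev, ev_self, Pi.mul_apply, Pi.sub_apply]
  push_cast
  ring

lemma hasF_u2 {γ ε : ℝ} (hε : 0 < ε) {g : E d → ℝ} (hg : Rap g) (v : E d) (i : Fin d) (w : E d) :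
    ∃ L : E d →L[ℝ] ℝ, HasFDerivAt (u2 γ ε g v i) L w ∧ L (ev i) = u2' γ ε g v i w := by
  have hD : HasFDerivAt g (fderiv ℝ g w) w := (rap_diff hg w).hasFDerivAt
  have h3 := ((hasF_rh (γ := γ) hε v w).mul hD).mul (hasF_coord v w i)
  refine ⟨_, h3, ?_⟩
  simp only [u2', inner_ev, ev_self, add_apply, sub_apply,
    smul_apply, ContinuousLinearMap.comp_apply, neg_apply,
    ContinuousLinearMap.id_apply, innerSL_apply_apply, inner_neg_right, map_neg, smul_eq_mul, nsmul_eq_mul,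
    proj_ev, ev_self, Pi.mul_apply, Pi.sub_apply]
  push_cast
  ring

/-- the trace of the second derivative -/
noncomputable def lap (g : E d → ℝ) (w : E d) : ℝ := ∑ i : Fin d, d2 g w (ev i)

lemma sum_u1' (γ ε : ℝ) (g : E d → ℝ) (v w : E d) : ∑ i, u1' γ ε g v i w =
    rh γ ε v w * (‖v - w‖ ^ 2 * lap g w - d2 g w (v - w) + ((d : ℝ) - 1) * fderiv ℝ g w (v - w)) := by
  have a1 := sum_clm (fderiv ℝ g w) (v - w)
  have a2 := sum_sq (v - w)
  have a3 : ∑ i, (v - w) i * fderiv ℝ (fderiv ℝ g) w (ev i) (v - w) = d2 g w (v - w) := by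
    have := sum_clm ((fderiv ℝ (fderiv ℝ g) w).flip (v - w)) (v - w)
    simp only [ContinuousLinearMap.flip_apply] at this
    exact this
  have a4 : ∑ i : Fin d, fderiv ℝ (fderiv ℝ g) w (ev i) (ev i) = lap g w := rfl
  have e : ∀ i : Fin d, u1' γ ε g v i w = -(γ * rh' γ ε v w) * ‖v - w‖ ^ 2 * ((v - w) i * fderiv ℝ g w (ev i)) +
      γ * rh' γ ε v w * fderiv ℝ g w (v - w) * ((v - w) i * (v - w) i) +
      rh γ ε v w * (-1) * ((v - w) i * fderiv ℝ g w (ev i)) +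
      rh γ ε v w * ‖v - w‖ ^ 2 * fderiv ℝ (fderiv ℝ g) w (ev i) (ev i) -
      rh γ ε v w * ((v - w) i * fderiv ℝ (fderiv ℝ g) w (ev i) (v - w)) +
      rh γ ε v w * fderiv ℝ g w (v - w) := by
    intro i
    unfold u1'
    ring
  rw [Finset.sum_congr rfl fun i _ => e i]
  rw [Finset.sum_add_distrib, Finset.sum_sub_distrib, Finset.sum_add_distrib, Finset.sum_add_distrib,
    Finset.sum_add_distrib, ← Finset.mul_sum, ← Finset.mul_sum, ← Finset.mul_sum, ← Finset.mul_sum,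
    ← Finset.mul_sum, a1, a2, a3, a4, Finset.sum_const, Finset.card_univ, Fintype.card_fin, nsmul_eq_mul]
  ring

lemma sum_u2' (γ ε : ℝ) (g : E d → ℝ) (v w : E d) : ∑ i, u2' γ ε g v i w =
    rh γ ε v w * fderiv ℝ g w (v - w) - g w * ((d : ℝ) * rh γ ε v w + γ * (‖v - w‖ ^ 2 * rh' γ ε v w)) := by
  have a1 := sum_clm (fderiv ℝ g w) (v - w)
  have a2 := sum_sq (v - w)
  have e : ∀ i : Fin d, u2' γ ε g v i w = -(γ * rh' γ ε v w) * g w * ((v - w) i * (v - w) i) +
      rh γ ε v w * ((v - w) i * fderiv ℝ g w (ev i)) - rh γ ε v w * g w := by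
    intro i
    unfold u2'
    ring
  rw [Finset.sum_congr rfl fun i _ => e i]
  rw [Finset.sum_sub_distrib, Finset.sum_add_distrib, ← Finset.mul_sum, ← Finset.mul_sum, a1, a2,
    Finset.sum_const, Finset.card_univ, Fintype.card_fin, nsmul_eq_mul]
  ring

end Pool.Agent.H737.BZ
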