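import Pool.Agent.H737.BZ.LndA2

/-!
# LND: the regularised identity
-/

set_option autoImplicit false

open MeasureTheory Metric Set Filter Topology
open scoped RealInnerProductSpace ENNReal

namespace Pool.Agent.H737.BZ

open Pool.Agent.H43.BZ

variable {d : ℕ}

lemma rh_nonneg (γ ε : ℝ) (hε : 0 < ε) (v w : E d) : 0 ≤ rh γ ε v w := by
  unfold rh; positivity

lemma rh'_nonneg (γ ε : ℝ) (hε : 0 < ε) (v w : E d) : 0 ≤ rh' γ ε v w := by
  unfold rh'; positivity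

lemma rh_cont (γ ε : ℝ) (hε : 0 < ε) (v : E d) : Continuous (fun w : E d => rh γ ε v w) := by
  unfold rh
  exact (((continuous_const.sub continuous_id).norm.pow 2).add continuous_const).rpow_const
    (fun w => Or.inl (ne_of_gt (show 0 < ‖v - w‖ ^ 2 + ε by positivity)))

lemma rh'_cont (γ ε : ℝ) (hε : 0 < ε) (v : E d) : Continuous (fun w : E d => rh' γ ε v w) := by
  unfold rh'
  exact (((continuous_const.sub continuous_id).norm.pow 2).add continuous_const).rpow_const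
    (fun w => Or.inl (ne_of_gt (show 0 < ‖v - w‖ ^ 2 + ε by positivity)))

lemma rh_gr {γ ε : ℝ} (hγ : γ < 0) (hε : 0 < ε) (v : E d) : Gr (fun w : E d => rh γ ε v w) := by
  refine ⟨ε ^ (γ / 2), 0, fun w => ?_⟩
  rw [abs_of_nonneg (rh_nonneg γ ε hε v w), pow_zero, mul_one]
  exact Real.rpow_le_rpow_of_nonpos hε (le_add_of_nonneg_left (by positivity)) (by linarith)

lemma rh'_gr {γ ε : ℝ} (hγ : γ < 0) (hε : 0 < ε) (v : E d) : Gr (fun w : E d => rh' γ ε v w) := by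
  refine ⟨ε ^ (γ / 2 - 1), 0, fun w => ?_⟩
  rw [abs_of_nonneg (rh'_nonneg γ ε hε v w), pow_zero, mul_one]
  exact Real.rpow_le_rpow_of_nonpos hε (le_add_of_nonneg_left (by positivity)) (by linarith)

section bounds

variable {g : E d → ℝ} (v w : E d) (i : Fin d)

lemma bd1 : |fderiv ℝ g w (ev i)| ≤ ‖fderiv ℝ g w‖ := by
  have := (fderiv ℝ g w).le_opNorm (ev i)
  rwa [ev_norm, mul_one, Real.norm_eq_abs] at this

lemma bd2 (z : E d) : |fderiv ℝ g w z| ≤ ‖fderiv ℝ g w‖ * ‖z‖ := (fderiv ℝ g w).le_opNorm z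

lemma bd5 (y z : E d) : |fderiv ℝ (fderiv ℝ g) w y z| ≤ ‖fderiv ℝ (fderiv ℝ g) w‖ * ‖y‖ * ‖z‖ :=
  (fderiv ℝ (fderiv ℝ g) w).le_opNorm₂ y z

lemma bd4 : |fderiv ℝ (fderiv ℝ g) w (ev i) (ev i)| ≤ ‖fderiv ℝ (fderiv ℝ g) w‖ := by
  have := bd5 (g := g) w (ev i) (ev i)
  rwa [ev_norm, mul_one, mul_one] at this

lemma bd5' (z : E d) : |fderiv ℝ (fderiv ℝ g) w (ev i) z| ≤ ‖fderiv ℝ (fderiv ℝ g) w‖ * ‖z‖ := by
  have := bd5 (g := g) w (ev i) z
  rwa [ev_norm, mul_one] at this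

lemma bd7 : |lap g w| ≤ d * ‖fderiv ℝ (fderiv ℝ g) w‖ := by
  unfold lap
  refine (Finset.abs_sum_le_sum_abs _ _).trans ?_
  refine (Finset.sum_le_sum fun i _ => bd4 (g := g) w i).trans ?_
  rw [Finset.sum_const, Finset.card_univ, Fintype.card_fin, nsmul_eq_mul]

lemma bdT (z : E d) : |‖z‖ ^ 2 * lap g w - d2 g w z| ≤ ((d : ℝ) + 1) * ‖z‖ ^ 2 * ‖fderiv ℝ (fderiv ℝ g) w‖ := by
  have h1 := bd7 (g := g) w
  have h2 : |d2 g w z| ≤ ‖fderiv ℝ (fderiv ℝ g) w‖ * ‖z‖ * ‖z‖ := bd5 w z z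
  have h3 : |‖z‖ ^ 2 * lap g w| ≤ ‖z‖ ^ 2 * (d * ‖fderiv ℝ (fderiv ℝ g) w‖) := by
    rw [abs_mul, abs_of_nonneg (by positivity : (0 : ℝ) ≤ ‖z‖ ^ 2)]
    exact mul_le_mul_of_nonneg_left h1 (by positivity)
  refine (abs_sub _ _).trans ?_
  linarith

end bounds

lemma alg_p {x y X Y : ℝ} (hx : |x| ≤ X) (hy : |y| ≤ Y) : |x * y| ≤ X * Y := by
  rw [abs_mul]
  exact mul_le_mul hx hy (abs_nonneg _) ((abs_nonneg _).trans hx)

lemma alg_u1 {γ R R' Z N1 N2 x1 x2 x3 x4 x5 : ℝ} (hR : 0 ≤ R) (hR' : 0 ≤ R') (hZ : 0 ≤ Z)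
    (h1 : |x1| ≤ N1) (h2 : |x2| ≤ N1 * Z) (h3 : |x3| ≤ Z) (h4 : |x4| ≤ N2) (h5 : |x5| ≤ N2 * Z) :
    |-(γ * R') * x3 * (Z ^ 2 * x1 - x2 * x3) + R * (-(2 * x3 * x1) + Z ^ 2 * x4 - (x5 - x1) * x3 + x2)| ≤
      (2 * |γ| * R' * Z ^ 3 + 4 * R * Z) * N1 + 2 * R * Z ^ 2 * N2 := by
  have p1 := alg_p h3 h1
  have p2 := alg_p h2 h3
  have p3 := alg_p h5 h3
  have hZ2 : |Z ^ 2| ≤ Z ^ 2 := by rw [abs_of_nonneg (by positivity)]
  have p4 := alg_p hZ2 h4
  have p5 := alg_p hZ2 h1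
  have q1 : |Z ^ 2 * x1 - x2 * x3| ≤ 2 * Z ^ 2 * N1 := by
    rw [abs_le] at p2 p5 ⊢
    constructor <;> nlinarith [p2.1, p2.2, p5.1, p5.2]
  have q2 := alg_p h3 q1
  have q3 : |-(2 * x3 * x1) + Z ^ 2 * x4 - (x5 - x1) * x3 + x2| ≤ 4 * Z * N1 + 2 * Z ^ 2 * N2 := by
    rw [abs_le] at p1 p3 p4 h2 ⊢
    constructor <;> nlinarith [p1.1, p1.2, p3.1, p3.2, p4.1, p4.2, h2.1, h2.2]
  have hg : |-(γ * R')| = |γ| * R' := by rw [abs_neg, abs_mul, abs_of_nonneg hR']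
  have r1 : |-(γ * R') * x3 * (Z ^ 2 * x1 - x2 * x3)| ≤ |γ| * R' * (Z * (2 * Z ^ 2 * N1)) := by
    rw [mul_assoc, abs_mul, hg]
    exact mul_le_mul_of_nonneg_left q2 (by positivity)
  have r2 : |R * (-(2 * x3 * x1) + Z ^ 2 * x4 - (x5 - x1) * x3 + x2)| ≤ R * (4 * Z * N1 + 2 * Z ^ 2 * N2) := by
    rw [abs_mul, abs_of_nonneg hR]
    exact mul_le_mul_of_nonneg_left q3 hR
  refine (abs_add_le _ _).trans ?_
  refine (add_le_add r1 r2).trans (le_of_eq ?_)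
  ring

lemma alg_u2 {γ R R' Z N1 G x0 x1 x3 : ℝ} (hR : 0 ≤ R) (hR' : 0 ≤ R') (hZ : 0 ≤ Z)
    (h0 : |x0| ≤ G) (h1 : |x1| ≤ N1) (h3 : |x3| ≤ Z) :
    |-(γ * R') * x3 * x0 * x3 + R * x1 * x3 - R * x0| ≤ (|γ| * R' * Z ^ 2 + R) * G + R * Z * N1 := by
  have hg : |-(γ * R')| ≤ |γ| * R' := by rw [abs_neg, abs_mul, abs_of_nonneg hR']
  have hRR : |R| ≤ R := by rw [abs_of_nonneg hR]
  have p1 := alg_p (alg_p (alg_p hg h3) h0) h3
  have p2 := alg_p (alg_p hRR h1) h3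
  have p3 := alg_p hRR h0
  refine (abs_sub _ _).trans ?_
  refine (add_le_add (abs_add_le _ _) le_rfl).trans ?_
  refine (add_le_add (add_le_add p1 p2) p3).trans (le_of_eq ?_)
  ring

section

variable {γ ε : ℝ} (hγ : γ < 0) (hε : 0 < ε) {g : E d → ℝ} (hg : Rap g) (v : E d) (i : Fin d)
include hγ hε hg

lemma dec_u1 : Dec (u1 γ ε g v i) := by
  have h1 : Dec (fun w => (2 * (rh γ ε v w * (‖v - w‖ * ‖v - w‖))) * ‖fderiv ℝ g w‖) :=
    Dec.mul ((Gr.const 2).mul ((rh_gr hγ hε v).mul ((Gr.dist v).mul (Gr.dist v)))) (rap_dec1 hg)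
  refine h1.mono fun w => ?_
  refine le_trans ?_ (le_abs_self _)
  have a1 := bd1 (g := g) w i
  have a2 := bd2 (g := g) w (v - w)
  have a3 := abs_coord_le (v - w) i
  have hR := rh_nonneg γ ε hε v w
  have p2 := alg_p a2 a3
  have hZ2 : |‖v - w‖ ^ 2| ≤ ‖v - w‖ ^ 2 := by rw [abs_of_nonneg (by positivity)]
  have p5 := alg_p hZ2 a1
  unfold u1
  rw [abs_mul, abs_of_nonneg hR]
  have q : |‖v - w‖ ^ 2 * fderiv ℝ g w (ev i) - fderiv ℝ g w (v - w) * (v - w) i| ≤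
      2 * ‖v - w‖ ^ 2 * ‖fderiv ℝ g w‖ := by
    refine (abs_sub _ _).trans ?_
    refine (add_le_add p5 p2).trans (le_of_eq ?_)
    ring
  refine (mul_le_mul_of_nonneg_left q hR).trans (le_of_eq ?_)
  ring

lemma dec_u2 : Dec (u2 γ ε g v i) := by
  have h1 : Dec (fun w => (rh γ ε v w * ‖v - w‖) * g w) :=
    Dec.mul ((rh_gr hγ hε v).mul (Gr.dist v)) (rap_dec0 hg)
  refine h1.mono fun w => ?_
  have a3 := abs_coord_le (v - w) i
  unfold u2
  rw [abs_mul, abs_mul, abs_mul, abs_mul, abs_of_nonneg (norm_nonneg (v - w))]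
  have : |rh γ ε v w| * |g w| * |(v - w) i| ≤ |rh γ ε v w| * |g w| * ‖v - w‖ :=
    mul_le_mul_of_nonneg_left a3 (by positivity)
  refine this.trans (le_of_eq ?_)
  ring

lemma dec_u1' : Dec (u1' γ ε g v i) := by
  have h1 : Dec (fun w => (2 * |γ| * rh' γ ε v w * ‖v - w‖ ^ 3 + 4 * rh γ ε v w * ‖v - w‖) * ‖fderiv ℝ g w‖) := by
    have e1 : Dec (fun w => ((2 * |γ|) * (rh' γ ε v w * (‖v - w‖ * (‖v - w‖ * ‖v - w‖)))) * ‖fderiv ℝ g w‖) :=
      Dec.mul ((Gr.const _).mul ((rh'_gr hγ hε v).mul ((Gr.dist v).mul ((Gr.dist v).mul (Gr.dist v))))) (rap_dec1 hg)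
    have e2 : Dec (fun w => (4 * (rh γ ε v w * ‖v - w‖)) * ‖fderiv ℝ g w‖) :=
      Dec.mul ((Gr.const _).mul ((rh_gr hγ hε v).mul (Gr.dist v))) (rap_dec1 hg)
    refine (e1.add e2).mono fun w => le_of_eq ?_
    congr 1
    ring
  have h2 : Dec (fun w => (2 * (rh γ ε v w * (‖v - w‖ * ‖v - w‖))) * ‖fderiv ℝ (fderiv ℝ g) w‖) :=
    Dec.mul ((Gr.const 2).mul ((rh_gr hγ hε v).mul ((Gr.dist v).mul (Gr.dist v)))) (rap_dec2 hg)
  refine (h1.add h2).mono fun w => ?_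
  refine le_trans ?_ (le_abs_self _)
  refine (alg_u1 (rh_nonneg γ ε hε v w) (rh'_nonneg γ ε hε v w) (norm_nonneg _) (bd1 (g := g) w i)
    (bd2 (g := g) w (v - w)) (abs_coord_le (v - w) i) (bd4 (g := g) w i) (bd5' (g := g) w i (v - w))).trans
    (le_of_eq ?_)
  ring

lemma dec_u2' : Dec (u2' γ ε g v i) := by
  have h1 : Dec (fun w => (|γ| * (rh' γ ε v w * (‖v - w‖ * ‖v - w‖))) * |g w|) :=
    Dec.mul ((Gr.const _).mul ((rh'_gr hγ hε v).mul ((Gr.dist v).mul (Gr.dist v))))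
      ((rap_dec0 hg).mono fun w => by rw [abs_abs])
  have h2 : Dec (fun w => rh γ ε v w * |g w|) :=
    Dec.mul (rh_gr hγ hε v) ((rap_dec0 hg).mono fun w => by rw [abs_abs])
  have h3 : Dec (fun w => (rh γ ε v w * ‖v - w‖) * ‖fderiv ℝ g w‖) :=
    Dec.mul ((rh_gr hγ hε v).mul (Gr.dist v)) (rap_dec1 hg)
  refine ((h1.add h2).add h3).mono fun w => ?_
  refine le_trans ?_ (le_abs_self _)
  refine (alg_u2 (rh_nonneg γ ε hε v w) (rh'_nonneg γ ε hε v w) (norm_nonneg _) (le_refl |g w|) (bd1 (g := g) w i)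
    (abs_coord_le (v - w) i)).trans (le_of_eq ?_)
  ring

omit hγ in
lemma cont_u1' : Continuous (u1' γ ε g v i) := by
  have hz : Continuous (fun w : E d => v - w) := continuous_const.sub continuous_id
  have hrh := rh_cont γ ε hε v
  have hrh' := rh'_cont γ ε hε v
  have hZ : Continuous (fun w : E d => ‖v - w‖ ^ 2) := hz.norm.pow 2
  have hc1 : Continuous (fun w : E d => fderiv ℝ g w (ev i)) := (rap_cont1 hg).clm_apply continuous_const
  have hc2 : Continuous (fun w : E d => fderiv ℝ g w (v - w)) := (rap_cont1 hg).clm_apply hz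
  have hc3 : Continuous (fun w : E d => (v - w) i) :=
    ((EuclideanSpace.proj (𝕜 := ℝ) i : E d →L[ℝ] ℝ).continuous).comp hz
  have hc4 : Continuous (fun w : E d => fderiv ℝ (fderiv ℝ g) w (ev i) (ev i)) :=
    ((rap_cont2 hg).clm_apply continuous_const).clm_apply continuous_const
  have hc5 : Continuous (fun w : E d => fderiv ℝ (fderiv ℝ g) w (ev i) (v - w)) :=
    ((rap_cont2 hg).clm_apply continuous_const).clm_apply hz
  unfold u1'
  exact ((((continuous_const.mul hrh').neg.mul hc3).mul ((hZ.mul hc1).sub (hc2.mul hc3)))).add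
    (hrh.mul (((((continuous_const.mul hc3).mul hc1).neg.add (hZ.mul hc4)).sub ((hc5.sub hc1).mul hc3)).add hc2))

omit hγ in
lemma cont_u2' : Continuous (u2' γ ε g v i) := by
  have hz : Continuous (fun w : E d => v - w) := continuous_const.sub continuous_id
  have hrh := rh_cont γ ε hε v
  have hrh' := rh'_cont γ ε hε v
  have hc1 : Continuous (fun w : E d => fderiv ℝ g w (ev i)) := (rap_cont1 hg).clm_apply continuous_const
  have hc3 : Continuous (fun w : E d => (v - w) i) :=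
    ((EuclideanSpace.proj (𝕜 := ℝ) i : E d →L[ℝ] ℝ).continuous).comp hz
  unfold u2'
  exact (((((continuous_const.mul hrh').neg.mul hc3).mul (rap_cont0 hg)).mul hc3).add
    ((hrh.mul hc1).mul hc3)).sub (hrh.mul (rap_cont0 hg))

lemma int_u1' : Integrable (u1' γ ε g v i) ∧ ∫ w, u1' γ ε g v i w = 0 := by
  have hi' : Integrable (u1' γ ε g v i) :=
    (dec_u1' hγ hε hg v i).int (cont_u1' hε hg v i).aestronglyMeasurable
  have hd : Differentiable ℝ (u1 γ ε g v i) := fun w => by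
    obtain ⟨L, hL, -⟩ := hasF_u1 (γ := γ) hε hg v i w
    exact hL.differentiableAt
  have he : (fun w => fderiv ℝ (u1 γ ε g v i) w (ev i)) = u1' γ ε g v i := by
    funext w
    obtain ⟨L, hL, hL'⟩ := hasF_u1 (γ := γ) hε hg v i w
    rw [hL.fderiv, hL']
  have hi : Integrable (u1 γ ε g v i) :=
    (dec_u1 hγ hε hg v i).int hd.continuous.aestronglyMeasurable
  have h := int_fderiv_zero hd (ev i) hi (by rw [he]; exact hi')
  rw [he] at h
  exact ⟨hi', h⟩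

lemma int_u2' : Integrable (u2' γ ε g v i) ∧ ∫ w, u2' γ ε g v i w = 0 := by
  have hi' : Integrable (u2' γ ε g v i) :=
    (dec_u2' hγ hε hg v i).int (cont_u2' hε hg v i).aestronglyMeasurable
  have hd : Differentiable ℝ (u2 γ ε g v i) := fun w => by
    obtain ⟨L, hL, -⟩ := hasF_u2 (γ := γ) hε hg v i w
    exact hL.differentiableAt
  have he : (fun w => fderiv ℝ (u2 γ ε g v i) w (ev i)) = u2' γ ε g v i := by
    funext w
    obtain ⟨L, hL, hL'⟩ := hasF_u2 (γ := γ) hε hg v i w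
    rw [hL.fderiv, hL']
  have hi : Integrable (u2 γ ε g v i) :=
    (dec_u2 hγ hε hg v i).int hd.continuous.aestronglyMeasurable
  have h := int_fderiv_zero hd (ev i) hi (by rw [he]; exact hi')
  rw [he] at h
  exact ⟨hi', h⟩

end

lemma lap_cont {g : E d → ℝ} (hg : Rap g) : Continuous (lap g) := by
  unfold lap d2
  exact continuous_finsetSum _ fun i _ => ((rap_cont2 hg).clm_apply continuous_const).clm_apply continuous_const

lemma d2_cont {g : E d → ℝ} (hg : Rap g) (v : E d) : Continuous (fun w => d2 g w (v - w)) := by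
  have hz : Continuous (fun w : E d => v - w) := continuous_const.sub continuous_id
  unfold d2
  exact ((rap_cont2 hg).clm_apply hz).clm_apply hz

lemma T_cont {g : E d → ℝ} (hg : Rap g) (v : E d) :
    Continuous (fun w => ‖v - w‖ ^ 2 * lap g w - d2 g w (v - w)) := by
  have hz : Continuous (fun w : E d => v - w) := continuous_const.sub continuous_id
  exact ((hz.norm.pow 2).mul (lap_cont hg)).sub (d2_cont hg v)

lemma T_dec {g : E d → ℝ} (hg : Rap g) (v : E d) :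
    Dec (fun w => ‖v - w‖ ^ 2 * lap g w - d2 g w (v - w)) := by
  have h2 : Dec (fun w => (((d : ℝ) + 1) * (‖v - w‖ * ‖v - w‖)) * ‖fderiv ℝ (fderiv ℝ g) w‖) :=
    Dec.mul ((Gr.const _).mul ((Gr.dist v).mul (Gr.dist v))) (rap_dec2 hg)
  refine h2.mono fun w => ?_
  refine le_trans ?_ (le_abs_self _)
  refine (bdT (g := g) w (v - w)).trans (le_of_eq ?_)
  ring

/-- the regularised identity -/
theorem reg_id {γ ε : ℝ} (hγ : γ < 0) (hε : 0 < ε) {g : E d → ℝ} (hg : Rap g) (v : E d) :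
    (∫ w, rh γ ε v w * (‖v - w‖ ^ 2 * lap g w - d2 g w (v - w))) =
      -(((d : ℝ) - 1) * ∫ w, g w * ((d : ℝ) * rh γ ε v w + γ * (‖v - w‖ ^ 2 * rh' γ ε v w))) := by
  have hz : Continuous (fun w : E d => v - w) := continuous_const.sub continuous_id
  have i1 : Integrable (fun w => rh γ ε v w * (‖v - w‖ ^ 2 * lap g w - d2 g w (v - w))) :=
    (Dec.mul (rh_gr hγ hε v) (T_dec hg v)).int ((rh_cont γ ε hε v).mul (T_cont hg v)).aestronglyMeasurable
  have i2 : Integrable (fun w => g w * ((d : ℝ) * rh γ ε v w + γ * (‖v - w‖ ^ 2 * rh' γ ε v w))) := by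
    have e1 : Dec (fun w => ((d : ℝ) * rh γ ε v w) * g w) :=
      Dec.mul ((Gr.const _).mul (rh_gr hγ hε v)) (rap_dec0 hg)
    have e2 : Dec (fun w => (γ * ((‖v - w‖ * ‖v - w‖) * rh' γ ε v w)) * g w) :=
      Dec.mul ((Gr.const _).mul (((Gr.dist v).mul (Gr.dist v)).mul (rh'_gr hγ hε v))) (rap_dec0 hg)
    have e3 : Dec (fun w => g w * ((d : ℝ) * rh γ ε v w + γ * (‖v - w‖ ^ 2 * rh' γ ε v w))) := by
      refine (e1.add e2).mono fun w => le_of_eq ?_
      congr 1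
      ring
    exact e3.int ((rap_cont0 hg).mul ((continuous_const.mul (rh_cont γ ε hε v)).add
      (continuous_const.mul ((hz.norm.pow 2).mul (rh'_cont γ ε hε v))))).aestronglyMeasurable
  have h0 : ∫ w, ∑ i : Fin d, (u1' γ ε g v i w - ((d : ℝ) - 1) * u2' γ ε g v i w) = 0 := by
    rw [integral_finsetSum]
    · apply Finset.sum_eq_zero
      intro i _
      obtain ⟨a1, a2⟩ := int_u1' hγ hε hg v i
      obtain ⟨b1, b2⟩ := int_u2' hγ hε hg v i
      rw [integral_sub a1 (b1.const_mul _), integral_const_mul, a2, b2]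
      ring
    · intro i _
      obtain ⟨a1, -⟩ := int_u1' hγ hε hg v i
      obtain ⟨b1, -⟩ := int_u2' hγ hε hg v i
      exact a1.sub (b1.const_mul _)
  have h1 : ∀ w, ∑ i : Fin d, (u1' γ ε g v i w - ((d : ℝ) - 1) * u2' γ ε g v i w) =
      rh γ ε v w * (‖v - w‖ ^ 2 * lap g w - d2 g w (v - w)) +
        ((d : ℝ) - 1) * (g w * ((d : ℝ) * rh γ ε v w + γ * (‖v - w‖ ^ 2 * rh' γ ε v w))) := by
    intro w
    rw [Finset.sum_sub_distrib, ← Finset.mul_sum, sum_u1', sum_u2']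
    ring
  rw [integral_congr_ae (Eventually.of_forall h1), integral_add i1 (i2.const_mul _), integral_const_mul] at h0
  linarith

end Pool.Agent.H737.BZ
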