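import Pool.Agent.H737.BZ.LndA3

/-!
# LND: the integration by parts with the singular kernel
-/

set_option autoImplicit false

open MeasureTheory Metric Set Filter Topology
open scoped RealInnerProductSpace ENNReal

namespace Pool.Agent.H737.BZ

open Pool.Agent.H43.BZ

variable {d : ℕ}

/-- the singular part -/
noncomputable def sph {d : ℕ} (γ : ℝ) (z : E d) : ℝ := (ball (0 : E d) 1).indicator (fun z => ‖z‖ ^ γ) z

lemma sph_nonneg {d : ℕ} (γ : ℝ) (z : E d) : 0 ≤ sph γ z :=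
  indicator_nonneg (fun _ _ => Real.rpow_nonneg (norm_nonneg _) _) z

lemma sph_int {d : ℕ} (hd : 2 ≤ d) {γ : ℝ} (hγ : -(d : ℝ) < γ) : Integrable (sph (d := d) γ) := by
  have hf : Module.finrank ℝ (E d) = d := finrank_euclideanSpace_fin
  unfold sph
  change Integrable ((ball (0 : E d) 1).indicator (fun z => ‖z‖ ^ γ))
  rw [integrable_indicator_iff measurableSet_ball]
  refine integrableOn_ball_of_norm_le_rpow (C := 1) (α := -γ) ?_ ?_ ?_ ?_
  · rw [hf]
    omega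
  · rw [hf]
    linarith
  · refine Filter.Eventually.of_forall fun x => ?_
    rw [neg_neg, one_mul, Real.norm_eq_abs, abs_of_nonneg (Real.rpow_nonneg (norm_nonneg _) _)]
  · exact (measurable_norm.pow_const γ).aestronglyMeasurable

lemma rpow_le_sph {d : ℕ} {γ : ℝ} (hγ : γ < 0) (z : E d) : ‖z‖ ^ γ ≤ 1 + sph γ z := by
  unfold sph
  by_cases h : z ∈ ball (0 : E d) 1
  · rw [indicator_of_mem h]
    linarith
  · rw [indicator_of_notMem h]
    rw [mem_ball_zero_iff, not_lt] at h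
    rw [add_zero]
    exact Real.rpow_le_one_of_one_le_of_nonpos h hγ.le

lemma meas_pow (γ : ℝ) (v : E d) : Measurable (fun w : E d => ‖v - w‖ ^ γ) :=
  ((measurable_const.sub measurable_id).norm).pow_const γ

/-- a decaying function times the singular power is integrable -/
lemma int_sing {d : ℕ} (hd : 2 ≤ d) {γ : ℝ} (hγ0 : -(d : ℝ) < γ) (hγ : γ < 0) {f : E d → ℝ} (hf : Dec f)
    (hm : AEStronglyMeasurable f) (v : E d) : Integrable (fun w => ‖v - w‖ ^ γ * |f w|) := by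
  obtain ⟨C, hC⟩ := hf.bdd
  have h1 : Integrable (fun w => |f w| + C * sph γ (v - w)) :=
    (hf.int hm).abs.add (((sph_int hd hγ0).comp_sub_left v).const_mul C)
  refine h1.mono' ((meas_pow γ v).aestronglyMeasurable.mul (hm.norm)) (Eventually.of_forall fun w => ?_)
  have h2 := rpow_le_sph hγ (v - w)
  have h3 := sph_nonneg γ (v - w)
  have h4 : 0 ≤ ‖v - w‖ ^ γ := Real.rpow_nonneg (norm_nonneg _) _
  rw [Real.norm_eq_abs, abs_of_nonneg (mul_nonneg h4 (abs_nonneg _))]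
  calc ‖v - w‖ ^ γ * |f w| ≤ (1 + sph γ (v - w)) * |f w| := mul_le_mul_of_nonneg_right h2 (abs_nonneg _)
    _ = |f w| + sph γ (v - w) * |f w| := by ring
    _ ≤ |f w| + sph γ (v - w) * C := by
      have := mul_le_mul_of_nonneg_left (hC w) h3
      linarith
    _ = |f w| + C * sph γ (v - w) := by ring

lemma pow_two_le {γ : ℝ} (h1 : -2 < γ) (h2 : γ < 0) {Z : ℝ} (hZ : 0 ≤ Z) : Z ^ γ * Z ^ 2 ≤ (1 + Z) ^ 2 := by
  rcases hZ.eq_or_lt with h | h
  · rw [← h]
    norm_num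
  · have e : Z ^ γ * Z ^ 2 = Z ^ (γ + 2) := by
      rw [Real.rpow_add h, Real.rpow_two]
    rw [e, ← Real.rpow_two]
    calc Z ^ (γ + 2) ≤ (1 + Z) ^ (γ + 2) := Real.rpow_le_rpow hZ (by linarith) (by linarith)
      _ ≤ (1 + Z) ^ (2 : ℝ) := Real.rpow_le_rpow_of_exponent_le (by linarith) (by linarith)

lemma sq_rpow {γ Z : ℝ} (hZ : 0 ≤ Z) : (Z ^ 2) ^ (γ / 2) = Z ^ γ := by
  rw [← Real.rpow_two, ← Real.rpow_mul hZ]
  congr 1
  ring

lemma rh_le {γ ε : ℝ} (hγ : γ < 0) (hε : 0 < ε) {v w : E d} (h : 0 < ‖v - w‖) : rh γ ε v w ≤ ‖v - w‖ ^ γ := by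
  unfold rh
  rw [← sq_rpow (γ := γ) h.le]
  exact Real.rpow_le_rpow_of_nonpos (by positivity) (by linarith) (by linarith)

lemma rh'_le {γ ε : ℝ} (hγ : γ < 0) (hε : 0 < ε) {v w : E d} (h : 0 < ‖v - w‖) :
    ‖v - w‖ ^ 2 * rh' γ ε v w ≤ ‖v - w‖ ^ γ := by
  refine le_trans ?_ (rh_le hγ hε h)
  unfold rh rh'
  have hs : 0 < ‖v - w‖ ^ 2 + ε := by positivity
  rw [Real.rpow_sub hs, Real.rpow_one, mul_div_assoc', div_le_iff₀ hs, mul_comm]
  exact mul_le_mul_of_nonneg_left (by linarith) (Real.rpow_nonneg hs.le _)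

/-- the sequence of the regularisation parameters -/
noncomputable def ep (n : ℕ) : ℝ := 1 / ((n : ℝ) + 1)

lemma ep_pos (n : ℕ) : 0 < ep n := by unfold ep; positivity

lemma ep_tendsto : Tendsto ep atTop (𝓝 0) := tendsto_one_div_add_atTop_nhds_zero_nat

lemma rh_tendsto {γ : ℝ} {v w : E d} (h : 0 < ‖v - w‖) :
    Tendsto (fun n => rh γ (ep n) v w) atTop (𝓝 (‖v - w‖ ^ γ)) := by
  unfold rh
  have h1 : Tendsto (fun n => ‖v - w‖ ^ 2 + ep n) atTop (𝓝 (‖v - w‖ ^ 2 + 0)) := tendsto_const_nhds.add ep_tendsto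
  rw [add_zero] at h1
  have h2 := h1.rpow_const (p := γ / 2) (Or.inl (by positivity))
  rwa [sq_rpow h.le] at h2

lemma rh'_tendsto {γ : ℝ} {v w : E d} (h : 0 < ‖v - w‖) :
    Tendsto (fun n => ‖v - w‖ ^ 2 * rh' γ (ep n) v w) atTop (𝓝 (‖v - w‖ ^ γ)) := by
  unfold rh'
  have h1 : Tendsto (fun n => ‖v - w‖ ^ 2 + ep n) atTop (𝓝 (‖v - w‖ ^ 2 + 0)) := tendsto_const_nhds.add ep_tendsto
  rw [add_zero] at h1
  have h2 := (h1.rpow_const (p := γ / 2 - 1) (Or.inl (by positivity))).const_mul (‖v - w‖ ^ 2)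
  have h3 : ‖v - w‖ ^ 2 * (‖v - w‖ ^ 2) ^ (γ / 2 - 1) = ‖v - w‖ ^ γ := by
    have hs : 0 < ‖v - w‖ ^ 2 := by positivity
    rw [Real.rpow_sub hs, Real.rpow_one, sq_rpow h.le, mul_div_assoc', mul_comm, mul_div_assoc, div_self hs.ne',
      mul_one]
  rwa [h3] at h2

lemma ae_ne_pt {d : ℕ} (hd : 2 ≤ d) (v : E d) : ∀ᵐ w : E d, 0 < ‖v - w‖ := by
  have : Nonempty (Fin d) := ⟨⟨0, by omega⟩⟩
  have : Nontrivial (E d) := inferInstance
  have h := (measure_singleton v : (volume : Measure (E d)) {v} = 0)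
  filter_upwards [compl_mem_ae_iff.2 h] with w hw
  rw [norm_pos_iff, sub_ne_zero]
  exact fun e => hw (by rw [e]; rfl)

/-- **integration by parts** -/
theorem sing_id {d : ℕ} (hd : 2 ≤ d) {γ : ℝ} (h1 : -2 < γ) (h2 : γ < 0) {g : E d → ℝ} (hg : Rap g) (v : E d) :
    (∫ w, ‖v - w‖ ^ γ * (‖v - w‖ ^ 2 * lap g w - d2 g w (v - w))) =
      -(((d : ℝ) - 1) * (d + γ) * ∫ w, g w * ‖v - w‖ ^ γ) := by
  have hd' : (2 : ℝ) ≤ d := by exact_mod_cast hd
  have hz : Continuous (fun w : E d => v - w) := continuous_const.sub continuous_id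
  have hγd : -(d : ℝ) < γ := by linarith
  -- the left side
  have L : Tendsto (fun n => ∫ w, rh γ (ep n) v w * (‖v - w‖ ^ 2 * lap g w - d2 g w (v - w))) atTop
      (𝓝 (∫ w, ‖v - w‖ ^ γ * (‖v - w‖ ^ 2 * lap g w - d2 g w (v - w)))) := by
    have hb : Dec (fun w => (((d : ℝ) + 1) * ((1 + ‖v - w‖) * (1 + ‖v - w‖))) * ‖fderiv ℝ (fderiv ℝ g) w‖) := by
      have e0 : Gr (fun w : E d => 1 + ‖v - w‖) := by
        obtain ⟨K, m, hK⟩ := Gr.dist v
        refine ⟨1 + K, m, fun w => ?_⟩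
        have a1 : 1 ≤ (1 + ‖w‖) ^ m := one_le_pow₀ (by linarith [norm_nonneg w])
        have a2 := hK w
        rw [abs_of_nonneg (norm_nonneg _)] at a2
        rw [abs_of_nonneg (by positivity)]
        linarith
      exact Dec.mul ((Gr.const _).mul (e0.mul e0)) (rap_dec2 hg)
    refine tendsto_integral_of_dominated_convergence
      (fun w => (((d : ℝ) + 1) * ((1 + ‖v - w‖) * (1 + ‖v - w‖))) * ‖fderiv ℝ (fderiv ℝ g) w‖) ?_ ?_ ?_ ?_
    · intro n
      exact ((rh_cont γ _ (ep_pos n) v).mul (T_cont hg v)).aestronglyMeasurable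
    · refine hb.int (Continuous.aestronglyMeasurable ?_)
      have c3 : Continuous (fun w => ‖fderiv ℝ (fderiv ℝ g) w‖) :=
        Continuous.norm (E := E d →L[ℝ] E d →L[ℝ] ℝ) (rap_cont2 hg)
      exact (continuous_const.mul ((continuous_const.add hz.norm).mul (continuous_const.add hz.norm))).mul c3
    · intro n
      filter_upwards [ae_ne_pt hd v] with w hw
      have a1 := rh_le h2 (ep_pos n) hw
      have a2 := bdT (g := g) w (v - w)
      have a3 := pow_two_le h1 h2 (norm_nonneg (v - w))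
      have a4 : 0 ≤ ‖fderiv ℝ (fderiv ℝ g) w‖ := ContinuousLinearMap.opNorm_nonneg _
      have a5 := rh_nonneg γ _ (ep_pos n) v w
      rw [Real.norm_eq_abs, abs_mul, abs_of_nonneg a5]
      have a6 : 0 ≤ ‖v - w‖ ^ γ := Real.rpow_nonneg (norm_nonneg _) _
      calc rh γ (ep n) v w * |‖v - w‖ ^ 2 * lap g w - d2 g w (v - w)|
          ≤ ‖v - w‖ ^ γ * (((d : ℝ) + 1) * ‖v - w‖ ^ 2 * ‖fderiv ℝ (fderiv ℝ g) w‖) :=
            mul_le_mul a1 a2 (abs_nonneg _) a6
        _ = (((d : ℝ) + 1) * ‖fderiv ℝ (fderiv ℝ g) w‖) * (‖v - w‖ ^ γ * ‖v - w‖ ^ 2) := by ring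
        _ ≤ (((d : ℝ) + 1) * ‖fderiv ℝ (fderiv ℝ g) w‖) * (1 + ‖v - w‖) ^ 2 :=
            mul_le_mul_of_nonneg_left a3 (by positivity)
        _ = _ := by ring
    · filter_upwards [ae_ne_pt hd v] with w hw
      exact (rh_tendsto hw).mul_const _
  -- the right side
  have R : Tendsto (fun n => ∫ w, g w * ((d : ℝ) * rh γ (ep n) v w + γ * (‖v - w‖ ^ 2 * rh' γ (ep n) v w))) atTop
      (𝓝 (∫ w, g w * ((d : ℝ) * ‖v - w‖ ^ γ + γ * ‖v - w‖ ^ γ))) := by
    have hb := (int_sing hd hγd h2 (rap_dec0 hg) (rap_cont0 hg).aestronglyMeasurable v).const_mul ((d : ℝ) + |γ|)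
    refine tendsto_integral_of_dominated_convergence _ ?_ hb ?_ ?_
    · intro n
      exact ((rap_cont0 hg).mul ((continuous_const.mul (rh_cont γ _ (ep_pos n) v)).add
        (continuous_const.mul ((hz.norm.pow 2).mul (rh'_cont γ _ (ep_pos n) v))))).aestronglyMeasurable
    · intro n
      filter_upwards [ae_ne_pt hd v] with w hw
      have a1 := rh_le h2 (ep_pos n) hw
      have a2 := rh'_le h2 (ep_pos n) hw
      have a5 := rh_nonneg γ _ (ep_pos n) v w
      have a7 : 0 ≤ ‖v - w‖ ^ 2 * rh' γ (ep n) v w := mul_nonneg (by positivity) (rh'_nonneg γ _ (ep_pos n) v w)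
      have b1 : |(d : ℝ) * rh γ (ep n) v w| ≤ (d : ℝ) * ‖v - w‖ ^ γ := by
        rw [abs_of_nonneg (by positivity)]
        exact mul_le_mul_of_nonneg_left a1 (by positivity)
      have b2 : |γ * (‖v - w‖ ^ 2 * rh' γ (ep n) v w)| ≤ |γ| * ‖v - w‖ ^ γ := by
        rw [abs_mul, abs_of_nonneg a7]
        exact mul_le_mul_of_nonneg_left a2 (abs_nonneg _)
      have b3 := (abs_add_le ((d : ℝ) * rh γ (ep n) v w) (γ * (‖v - w‖ ^ 2 * rh' γ (ep n) v w))).trans
        (add_le_add b1 b2)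
      rw [Real.norm_eq_abs, abs_mul]
      refine (mul_le_mul_of_nonneg_left b3 (abs_nonneg _)).trans (le_of_eq ?_)
      ring
    · filter_upwards [ae_ne_pt hd v] with w hw
      exact (((rh_tendsto hw).const_mul _).add ((rh'_tendsto hw).const_mul _)).const_mul _
  have key : ∀ n, (∫ w, rh γ (ep n) v w * (‖v - w‖ ^ 2 * lap g w - d2 g w (v - w))) =
      -(((d : ℝ) - 1) * ∫ w, g w * ((d : ℝ) * rh γ (ep n) v w + γ * (‖v - w‖ ^ 2 * rh' γ (ep n) v w))) :=
    fun n => reg_id h2 (ep_pos n) hg v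
  have R' := (R.const_mul ((d : ℝ) - 1)).neg
  have L' := L.congr key
  have e := tendsto_nhds_unique L' R'
  rw [e]
  have e2 : ∀ w, g w * ((d : ℝ) * ‖v - w‖ ^ γ + γ * ‖v - w‖ ^ γ) = ((d : ℝ) + γ) * (g w * ‖v - w‖ ^ γ) := by
    intro w; ring
  rw [integral_congr_ae (Eventually.of_forall e2), integral_const_mul]
  ring

end Pool.Agent.H737.BZ
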