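import Pool.Agent.H737.BZ.LndA4

/-!
# LND: differentiation of the flux
-/

set_option autoImplicit false

open MeasureTheory Metric Set Filter Topology
open scoped RealInnerProductSpace ENNReal

namespace Pool.Agent.H737.BZ

open Pool.Agent.H43.BZ

variable {d : ℕ}

/-- the antisymmetric combination of `g` and its derivative -/
noncomputable def W (g : E d → ℝ) (x z h : E d) : ℝ :=
  g (x - z) * fderiv ℝ g x h - g x * fderiv ℝ g (x - z) h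

/-- its derivative in `x` -/
noncomputable def W' (g : E d → ℝ) (x z h : E d) : E d →L[ℝ] ℝ :=
  fderiv ℝ g x h • fderiv ℝ g (x - z) + g (x - z) • (fderiv ℝ (fderiv ℝ g) x).flip h -
    (fderiv ℝ g (x - z) h • fderiv ℝ g x + g x • (fderiv ℝ (fderiv ℝ g) (x - z)).flip h)

lemma W'_apply (g : E d → ℝ) (x z h k : E d) : W' g x z h k =
    fderiv ℝ g x h * fderiv ℝ g (x - z) k + g (x - z) * fderiv ℝ (fderiv ℝ g) x k h -
      (fderiv ℝ g (x - z) h * fderiv ℝ g x k + g x * fderiv ℝ (fderiv ℝ g) (x - z) k h) := rfl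

lemma hasF_W {g : E d → ℝ} (hg : Rap g) (x z h : E d) :
    HasFDerivAt (fun y => W g y z h) (W' g x z h) x := by
  have hs : HasFDerivAt (fun y : E d => y - z) (ContinuousLinearMap.id ℝ (E d)) x :=
    (hasFDerivAt_id x).sub_const z
  have a1 : HasFDerivAt (fun y => g (y - z)) ((fderiv ℝ g (x - z)).comp (ContinuousLinearMap.id ℝ (E d))) x :=
    HasFDerivAt.comp x (rap_diff hg (x - z)).hasFDerivAt hs
  have a2 : HasFDerivAt g (fderiv ℝ g x) x := (rap_diff hg x).hasFDerivAt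
  have a3 : HasFDerivAt (fderiv ℝ g) (fderiv ℝ (fderiv ℝ g) x) x := (rap_diff1 hg x).hasFDerivAt
  have a4 : HasFDerivAt (fun y => fderiv ℝ g (y - z))
      ((fderiv ℝ (fderiv ℝ g) (x - z)).comp (ContinuousLinearMap.id ℝ (E d))) x :=
    HasFDerivAt.comp x (rap_diff1 hg (x - z)).hasFDerivAt hs
  have b1 := a3.clm_apply (hasFDerivAt_const h x)
  have b2 := a4.clm_apply (hasFDerivAt_const h x)
  have c := (a1.mul b1).sub (a2.mul b2)
  refine c.congr_fderiv ?_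
  ext k
  rw [W'_apply]
  simp only [add_apply, sub_apply, smul_apply, ContinuousLinearMap.comp_apply,
    ContinuousLinearMap.id_apply, ContinuousLinearMap.flip_apply, zero_apply, map_zero, smul_eq_mul]
  ring

/-- the total size -/
noncomputable def NN (g : E d → ℝ) (w : E d) : ℝ :=
  |g w| + ‖fderiv ℝ g w‖ + ‖fderiv ℝ (fderiv ℝ g) w‖

lemma nd2 (g : E d → ℝ) (w : E d) : (0 : ℝ) ≤ ‖fderiv ℝ (fderiv ℝ g) w‖ := ContinuousLinearMap.opNorm_nonneg _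

lemma NN_nonneg (g : E d → ℝ) (w : E d) : 0 ≤ NN g w := by
  unfold NN
  have := nd2 g w
  positivity

lemma NN_dec {g : E d → ℝ} (hg : Rap g) : Dec (NN g) := by
  have h0 : Dec (fun w => |g w|) := (rap_dec0 hg).mono fun w => by rw [abs_abs]
  exact (h0.add (rap_dec1 hg)).add (rap_dec2 hg)

lemma W_le (g : E d → ℝ) (x z h : E d) : |W g x z h| ≤ 2 * NN g x * NN g (x - z) * ‖h‖ := by
  have h1 := bd2 (g := g) x h
  have h2 := bd2 (g := g) (x - z) h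
  have p1 := alg_p (le_refl |g (x - z)|) h1
  have p2 := alg_p (le_refl |g x|) h2
  have n1 := nd2 g x
  have n2 := nd2 g (x - z)
  have m1 := norm_nonneg (fderiv ℝ g x)
  have m2 := norm_nonneg (fderiv ℝ g (x - z))
  have k1 := abs_nonneg (g x)
  have k2 := abs_nonneg (g (x - z))
  have hh := norm_nonneg h
  unfold W
  refine (abs_sub _ _).trans ((add_le_add p1 p2).trans ?_)
  have e : |g (x - z)| * ‖fderiv ℝ g x‖ + |g x| * ‖fderiv ℝ g (x - z)‖ ≤ 2 * NN g x * NN g (x - z) := by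
    unfold NN
    nlinarith [mul_nonneg k2 m1, mul_nonneg k1 m2, mul_nonneg k1 k2, mul_nonneg m1 m2, mul_nonneg k1 n2,
      mul_nonneg m1 n2, mul_nonneg n1 n2, mul_nonneg n1 m2, mul_nonneg n1 k2]
  calc |g (x - z)| * (‖fderiv ℝ g x‖ * ‖h‖) + |g x| * (‖fderiv ℝ g (x - z)‖ * ‖h‖)
      = (|g (x - z)| * ‖fderiv ℝ g x‖ + |g x| * ‖fderiv ℝ g (x - z)‖) * ‖h‖ := by ring
    _ ≤ 2 * NN g x * NN g (x - z) * ‖h‖ := mul_le_mul_of_nonneg_right e hh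

lemma W'_le (g : E d → ℝ) (x z h : E d) : ‖W' g x z h‖ ≤ 2 * NN g x * NN g (x - z) * ‖h‖ := by
  have N1 := NN_nonneg g x
  have N2 := NN_nonneg g (x - z)
  have n1 := nd2 g x
  have n2 := nd2 g (x - z)
  have m1 := norm_nonneg (fderiv ℝ g x)
  have m2 := norm_nonneg (fderiv ℝ g (x - z))
  have k1 := abs_nonneg (g x)
  have k2 := abs_nonneg (g (x - z))
  have hh := norm_nonneg h
  refine ContinuousLinearMap.opNorm_le_bound _ (by positivity) fun k => ?_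
  have hk := norm_nonneg k
  rw [W'_apply, Real.norm_eq_abs]
  have p1 := alg_p (bd2 (g := g) x h) (bd2 (g := g) (x - z) k)
  have p2 := alg_p (le_refl |g (x - z)|) (bd5 (g := g) x k h)
  have p3 := alg_p (bd2 (g := g) (x - z) h) (bd2 (g := g) x k)
  have p4 := alg_p (le_refl |g x|) (bd5 (g := g) (x - z) k h)
  refine (abs_sub _ _).trans ((add_le_add ((abs_add_le _ _).trans (add_le_add p1 p2))
    ((abs_add_le _ _).trans (add_le_add p3 p4))).trans ?_)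
  have e : 2 * (‖fderiv ℝ g x‖ * ‖fderiv ℝ g (x - z)‖) + |g (x - z)| * ‖fderiv ℝ (fderiv ℝ g) x‖ +
      |g x| * ‖fderiv ℝ (fderiv ℝ g) (x - z)‖ ≤ 2 * NN g x * NN g (x - z) := by
    unfold NN
    nlinarith [mul_nonneg k2 m1, mul_nonneg k1 m2, mul_nonneg k1 k2, mul_nonneg m1 m2, mul_nonneg k1 n2,
      mul_nonneg m1 n2, mul_nonneg n1 n2, mul_nonneg n1 m2, mul_nonneg n1 k2]
  calc _ = (2 * (‖fderiv ℝ g x‖ * ‖fderiv ℝ g (x - z)‖) + |g (x - z)| * ‖fderiv ℝ (fderiv ℝ g) x‖ +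
      |g x| * ‖fderiv ℝ (fderiv ℝ g) (x - z)‖) * (‖h‖ * ‖k‖) := by ring
    _ ≤ 2 * NN g x * NN g (x - z) * (‖h‖ * ‖k‖) := mul_le_mul_of_nonneg_right e (by positivity)
    _ = _ := by ring

/-- the components of the integrand of the flux -/
noncomputable def cc (γ : ℝ) (g : E d → ℝ) (i : Fin d) (x z : E d) : ℝ :=
  ‖z‖ ^ γ * (‖z‖ ^ 2 * W g x z (ev i) - W g x z z * z i)

/-- their derivatives -/
noncomputable def cc' (γ : ℝ) (g : E d → ℝ) (i : Fin d) (x z : E d) : E d →L[ℝ] ℝ :=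
  ‖z‖ ^ γ • (‖z‖ ^ 2 • W' g x z (ev i) - z i • W' g x z z)

lemma hasF_cc {g : E d → ℝ} (hg : Rap g) (γ : ℝ) (i : Fin d) (x z : E d) :
    HasFDerivAt (fun y => cc γ g i y z) (cc' γ g i x z) x :=
  (((hasF_W hg x z (ev i)).const_mul (‖z‖ ^ 2)).sub ((hasF_W hg x z z).mul_const (z i))).const_mul (‖z‖ ^ γ)

lemma cc_le {γ : ℝ} (h1 : -2 < γ) (h2 : γ < 0) (g : E d → ℝ) (i : Fin d) (x z : E d) :
    |cc γ g i x z| ≤ (1 + ‖z‖) ^ 2 * (4 * NN g x * NN g (x - z)) := by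
  have N1 := NN_nonneg g x
  have N2 := NN_nonneg g (x - z)
  have hz := norm_nonneg z
  have a0 := pow_two_le h1 h2 hz
  have a1 := W_le g x z (ev i)
  rw [ev_norm, mul_one] at a1
  have a2 := alg_p (W_le g x z z) (abs_coord_le z i)
  have a3 : 0 ≤ ‖z‖ ^ γ := Real.rpow_nonneg hz _
  unfold cc
  rw [abs_mul, abs_of_nonneg a3]
  have a4 : |‖z‖ ^ 2 * W g x z (ev i)| ≤ ‖z‖ ^ 2 * (2 * NN g x * NN g (x - z)) := by
    rw [abs_mul, abs_of_nonneg (by positivity : (0 : ℝ) ≤ ‖z‖ ^ 2)]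
    exact mul_le_mul_of_nonneg_left a1 (by positivity)
  calc ‖z‖ ^ γ * |‖z‖ ^ 2 * W g x z (ev i) - W g x z z * z i|
      ≤ ‖z‖ ^ γ * (‖z‖ ^ 2 * (2 * NN g x * NN g (x - z)) + 2 * NN g x * NN g (x - z) * ‖z‖ * ‖z‖) :=
        mul_le_mul_of_nonneg_left ((abs_sub _ _).trans (add_le_add a4 a2)) a3
    _ = (‖z‖ ^ γ * ‖z‖ ^ 2) * (4 * NN g x * NN g (x - z)) := by ring
    _ ≤ (1 + ‖z‖) ^ 2 * (4 * NN g x * NN g (x - z)) := mul_le_mul_of_nonneg_right a0 (by positivity)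

lemma cc'_le {γ : ℝ} (h1 : -2 < γ) (h2 : γ < 0) (g : E d → ℝ) (i : Fin d) (x z : E d) :
    ‖cc' γ g i x z‖ ≤ (1 + ‖z‖) ^ 2 * (4 * NN g x * NN g (x - z)) := by
  have N1 := NN_nonneg g x
  have N2 := NN_nonneg g (x - z)
  have hz := norm_nonneg z
  have a0 := pow_two_le h1 h2 hz
  have a1 := W'_le g x z (ev i)
  rw [ev_norm, mul_one] at a1
  have a2 := W'_le g x z z
  have a2' := abs_coord_le z i
  have a3 : 0 ≤ ‖z‖ ^ γ := Real.rpow_nonneg hz _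
  unfold cc'
  rw [norm_smul, Real.norm_eq_abs, abs_of_nonneg a3]
  have a4 : ‖‖z‖ ^ 2 • W' g x z (ev i)‖ ≤ ‖z‖ ^ 2 * (2 * NN g x * NN g (x - z)) := by
    rw [norm_smul, Real.norm_eq_abs, abs_of_nonneg (by positivity : (0 : ℝ) ≤ ‖z‖ ^ 2)]
    exact mul_le_mul_of_nonneg_left a1 (by positivity)
  have a5 : ‖z i • W' g x z z‖ ≤ ‖z‖ * (2 * NN g x * NN g (x - z) * ‖z‖) := by
    rw [norm_smul, Real.norm_eq_abs]
    exact mul_le_mul a2' a2 (norm_nonneg _) hz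
  calc ‖z‖ ^ γ * ‖‖z‖ ^ 2 • W' g x z (ev i) - z i • W' g x z z‖
      ≤ ‖z‖ ^ γ * (‖z‖ ^ 2 * (2 * NN g x * NN g (x - z)) + ‖z‖ * (2 * NN g x * NN g (x - z) * ‖z‖)) :=
        mul_le_mul_of_nonneg_left ((norm_sub_le _ _).trans (add_le_add a4 a5)) a3
    _ = (‖z‖ ^ γ * ‖z‖ ^ 2) * (4 * NN g x * NN g (x - z)) := by ring
    _ ≤ (1 + ‖z‖) ^ 2 * (4 * NN g x * NN g (x - z)) := mul_le_mul_of_nonneg_right a0 (by positivity)

lemma dec_shift {f : E d → ℝ} (hf : Dec f) (v : E d) : ∃ C : ℝ, ∀ x ∈ ball v 1, ∀ z,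
    |f (x - z)| ≤ C * ((1 + ‖z‖) ^ (d + 3))⁻¹ := by
  obtain ⟨C, hC⟩ := hf (d + 3)
  refine ⟨C * (2 + ‖v‖) ^ (d + 3), fun x hx z => ?_⟩
  have h1 := hC (x - z)
  have hx' : ‖x‖ ≤ 1 + ‖v‖ := by
    have a1 : ‖x - v‖ < 1 := by rwa [mem_ball, dist_eq_norm] at hx
    have a2 : ‖x‖ ≤ ‖x - v‖ + ‖v‖ := by
      have := norm_add_le (x - v) v
      rwa [sub_add_cancel] at this
    linarith
  have h2 : 1 + ‖z‖ ≤ (1 + ‖x - z‖) * (2 + ‖v‖) := by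
    have a3 : ‖z‖ ≤ ‖x‖ + ‖x - z‖ := by
      have := norm_sub_le x (x - z)
      rwa [sub_sub_cancel] at this
    nlinarith [norm_nonneg v, norm_nonneg (x - z), norm_nonneg z]
  have h3 : (1 + ‖z‖) ^ (d + 3) ≤ (1 + ‖x - z‖) ^ (d + 3) * (2 + ‖v‖) ^ (d + 3) := by
    rw [← mul_pow]
    exact pow_le_pow_left₀ (by positivity) h2 _
  have h4 : 0 < (1 + ‖z‖) ^ (d + 3) := by positivity
  rw [← div_eq_mul_inv, le_div_iff₀ h4]
  calc |f (x - z)| * (1 + ‖z‖) ^ (d + 3) ≤ |f (x - z)| * ((1 + ‖x - z‖) ^ (d + 3) * (2 + ‖v‖) ^ (d + 3)) :=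
        mul_le_mul_of_nonneg_left h3 (abs_nonneg _)
    _ = ((1 + ‖x - z‖) ^ (d + 3) * |f (x - z)|) * (2 + ‖v‖) ^ (d + 3) := by ring
    _ ≤ C * (2 + ‖v‖) ^ (d + 3) := mul_le_mul_of_nonneg_right h1 (by positivity)

lemma cc_bound {γ : ℝ} (h1 : -2 < γ) (h2 : γ < 0) {g : E d → ℝ} (hg : Rap g) (v : E d) :
    ∃ K : ℝ, ∀ x ∈ ball v 1, ∀ z, ∀ i, |cc γ g i x z| ≤ K * ((1 + ‖z‖) ^ (d + 1))⁻¹ ∧
      ‖cc' γ g i x z‖ ≤ K * ((1 + ‖z‖) ^ (d + 1))⁻¹ := by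
  obtain ⟨C0, hC0⟩ := (NN_dec hg).bdd
  obtain ⟨C, hC⟩ := dec_shift (NN_dec hg) v
  refine ⟨4 * C0 * C, fun x hx z i => ?_⟩
  have a1 := hC x hx z
  have a2 := hC0 x
  rw [abs_of_nonneg (NN_nonneg g _)] at a1 a2
  have N1 := NN_nonneg g x
  have N2 := NN_nonneg g (x - z)
  have hz := norm_nonneg z
  have key : (1 + ‖z‖) ^ 2 * (4 * NN g x * NN g (x - z)) ≤ 4 * C0 * C * ((1 + ‖z‖) ^ (d + 1))⁻¹ := by
    have p : NN g x * NN g (x - z) ≤ C0 * (C * ((1 + ‖z‖) ^ (d + 3))⁻¹) :=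
      mul_le_mul a2 a1 N2 (N1.trans a2)
    have hp : (0 : ℝ) < 1 + ‖z‖ := by positivity
    calc (1 + ‖z‖) ^ 2 * (4 * NN g x * NN g (x - z)) = (4 * (1 + ‖z‖) ^ 2) * (NN g x * NN g (x - z)) := by ring
      _ ≤ (4 * (1 + ‖z‖) ^ 2) * (C0 * (C * ((1 + ‖z‖) ^ (d + 3))⁻¹)) := mul_le_mul_of_nonneg_left p (by positivity)
      _ = 4 * C0 * C * ((1 + ‖z‖) ^ (d + 1))⁻¹ := by
        have e : (1 + ‖z‖) ^ (d + 3) = (1 + ‖z‖) ^ (d + 1) * (1 + ‖z‖) ^ 2 := by rw [← pow_add]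
        rw [e]
        field_simp
  exact ⟨(cc_le h1 h2 g i x z).trans key, (cc'_le h1 h2 g i x z).trans key⟩

end Pool.Agent.H737.BZ
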